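import Pool.Agent.D0H15.TI.Stm

set_option autoImplicit false

/-!
# The valuation of the norm of an ideal as a sum over the Galois group
-/

open NumberField
open scoped Pointwise

namespace Pool.Agent.D0H53.TI

open Pool.Agent.D0H15.TI

variable {M : Type} [Field M] [NumberField M]

omit [NumberField M] in
theorem lies (p : ℕ) (hp : p.Prime) (P : Ideal (𝓞 M)) (hP : P.IsMaximal) (hpP : (p : 𝓞 M) ∈ P) :
    P.LiesOver (Ideal.span {(p : ℤ)}) := by
  have hpm : (Ideal.span {(p : ℤ)}).IsMaximal :=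
    ((Ideal.span_singleton_prime (by exact_mod_cast hp.ne_zero)).mpr (Nat.prime_iff_prime_int.mp hp)).isMaximal
      (by simpa using hp.ne_zero)
  constructor
  refine hpm.eq_of_le ?_ ?_
  · exact Ideal.comap_ne_top _ hP.ne_top
  · rw [Ideal.span_singleton_le_iff_mem]
    change algebraMap ℤ (𝓞 M) (p : ℤ) ∈ P
    rw [map_natCast]
    exact hpP

theorem smul_max (P : Ideal (𝓞 M)) (hP : P.IsMaximal) (g : M ≃ₐ[ℚ] M) : (g • P).IsMaximal := by
  rw [Ideal.pointwise_smul_eq_comap]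
  exact Ideal.comap_isMaximal_of_equiv _

theorem mem_smul (p : ℕ) (P : Ideal (𝓞 M)) (hpP : (p : 𝓞 M) ∈ P) (g : M ≃ₐ[ℚ] M) : (p : 𝓞 M) ∈ g • P := by
  rw [Ideal.mem_pointwise_smul_iff_inv_smul_mem]
  have : g⁻¹ • (p : 𝓞 M) = p := map_natCast (MulSemiringAction.toRingHom (M ≃ₐ[ℚ] M) (𝓞 M) g⁻¹) p
  rw [this]
  exact hpP

theorem max_ne_bot (P : Ideal (𝓞 M)) (hP : P.IsMaximal) : P ≠ ⊥ := Ideal.IsMaximal.ne_bot_of_isIntegral_int P

/-- the multiplicity of a maximal ideal in a maximal ideal -/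
theorem mult_prime (P Q : Ideal (𝓞 M)) (hP : P.IsMaximal) (hQ : Q.IsMaximal) [Decidable (P = Q)] :
    multiplicity P Q = if P = Q then 1 else 0 := by
  have hPp : Prime P := (Ideal.prime_iff_isPrime (max_ne_bot P hP)).2 hP.isPrime
  split_ifs with h
  · rw [h]
    exact multiplicity_self
  · rw [multiplicity_eq_zero]
    intro hd
    exact h (hQ.eq_of_le hP.ne_top (Ideal.le_of_dvd hd)).symm

open scoped Classical in
/-- the case of a prime ideal -/
theorem prime_case [IsGalois ℚ M] (p : ℕ) (hp : p.Prime) (P : Ideal (𝓞 M)) (hP : P.IsMaximal) (hpP : (p : 𝓞 M) ∈ P)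
    (Q : Ideal (𝓞 M)) (hQ : Q.IsMaximal) :
    Nat.card (P.inertia (M ≃ₐ[ℚ] M)) * padicValNat p (Ideal.absNorm Q) =
      ∑ g : M ≃ₐ[ℚ] M, multiplicity (g • P) Q := by
  have h1 : ∀ g : M ≃ₐ[ℚ] M, multiplicity (g • P) Q = if g • P = Q then 1 else 0 := fun g =>
    mult_prime _ _ (smul_max P hP g) hQ
  simp only [h1]
  rw [Finset.sum_boole]
  by_cases hpQ : (p : 𝓞 M) ∈ Q
  · have l1 := lies p hp P hP hpP
    have l2 := lies p hp Q hQ hpQ
    have := hP.isPrime
    have := hQ.isPrime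
    obtain ⟨g₀, hg₀⟩ := Ideal.exists_smul_eq_of_isGaloisGroup (Ideal.span {(p : ℤ)}) P Q (M ≃ₐ[ℚ] M)
    have h2 : (Finset.univ.filter fun g : M ≃ₐ[ℚ] M => g • P = Q).card =
        Nat.card (MulAction.stabilizer (M ≃ₐ[ℚ] M) P) := by
      have e1 : Nat.card (MulAction.stabilizer (M ≃ₐ[ℚ] M) P) =
          (Finset.univ.filter fun g : M ≃ₐ[ℚ] M => g • P = P).card := by
        refine Nat.subtype_card _ fun g => ?_
        rw [Finset.mem_filter, MulAction.mem_stabilizer_iff]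
        exact ⟨fun h => h.2, fun h => ⟨Finset.mem_univ _, h⟩⟩
      rw [e1]
      refine Finset.card_bij (fun g _ => g₀⁻¹ * g) ?_ ?_ ?_
      · intro g hg
        rw [Finset.mem_filter] at hg ⊢
        refine ⟨Finset.mem_univ _, ?_⟩
        rw [mul_smul, hg.2, ← hg₀, inv_smul_smul]
      · intro g _ g' _ h
        exact mul_left_cancel h
      · intro g hg
        rw [Finset.mem_filter] at hg
        refine ⟨g₀ * g, ?_, by rw [inv_mul_cancel_left]⟩
        rw [Finset.mem_filter]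
        refine ⟨Finset.mem_univ _, ?_⟩
        rw [mul_smul, hg.2, hg₀]
    have hpr : (Ideal.span {(p : ℤ)}).IsPrime :=
      (Ideal.span_singleton_prime (by exact_mod_cast hp.ne_zero)).mpr (Nat.prime_iff_prime_int.mp hp)
    have h3 := Ideal.card_stabilizer_eq_card_inertia_mul_finrank (G := M ≃ₐ[ℚ] M) (Ideal.span {(p : ℤ)}) P
    have h4 := Ideal.inertiaDeg_eq_of_isGaloisGroup (Ideal.span {(p : ℤ)}) P Q (M ≃ₐ[ℚ] M)
    have h5 := Ideal.pow_inertiaDeg p Q
    have : Fact p.Prime := ⟨hp⟩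
    rw [h2, h3, h4, ← h5, padicValNat.prime_pow]
    rfl
  · have h2 : (Finset.univ.filter fun g : M ≃ₐ[ℚ] M => g • P = Q) = ∅ := by
      rw [Finset.filter_eq_empty_iff]
      intro g _ hg
      apply hpQ
      rw [← hg]
      exact mem_smul p P hpP g
    rw [h2, Finset.card_empty, Nat.cast_zero]
    have h3 : ¬ p ∣ Ideal.absNorm Q := by
      intro hd
      obtain ⟨q, n, hn, hqQ, hq, hN⟩ := Ideal.exists_prime_and_absNorm_eq_pow Q
      rw [hN] at hd
      have h4 : p = q := (Nat.prime_dvd_prime_iff_eq hp hq).1 (hp.dvd_of_dvd_pow hd)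
      rw [← h4] at hqQ
      exact hpQ hqQ
    rw [padicValNat.eq_zero_of_not_dvd h3, mul_zero]

open scoped Classical in
theorem gen_case [IsGalois ℚ M] (p : ℕ) (hp : p.Prime) (P : Ideal (𝓞 M)) (hP : P.IsMaximal) (hpP : (p : 𝓞 M) ∈ P)
    (D : Ideal (𝓞 M)) : D ≠ ⊥ →
    Nat.card (P.inertia (M ≃ₐ[ℚ] M)) * padicValNat p (Ideal.absNorm D) =
      ∑ g : M ≃ₐ[ℚ] M, multiplicity (g • P) D := by
  have : Fact p.Prime := ⟨hp⟩
  induction D using UniqueFactorizationMonoid.induction_on_prime with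
  | h₁ => intro h; exact absurd rfl h
  | h₂ D hD =>
    intro _
    rw [Ideal.isUnit_iff] at hD
    subst hD
    rw [Ideal.absNorm_top, padicValNat_one_right, mul_zero]
    symm
    apply Finset.sum_eq_zero
    intro g _
    rw [multiplicity_eq_zero]
    intro hd
    have := Ideal.le_of_dvd hd
    exact (smul_max P hP g).ne_top (top_le_iff.1 this)
  | h₃ D Q hD hQ ih =>
    intro _
    have hQm : Q.IsMaximal := (Ideal.isPrime_of_prime hQ).isMaximal hQ.ne_zero
    have h1 := ih hD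
    have h2 := prime_case p hp P hP hpP Q hQm
    have h3 : Ideal.absNorm Q ≠ 0 := Ideal.absNorm_ne_zero_iff_mem_nonZeroDivisors.2 (mem_nonZeroDivisors_of_ne_zero hQ.ne_zero)
    have h4 : Ideal.absNorm D ≠ 0 := Ideal.absNorm_ne_zero_iff_mem_nonZeroDivisors.2 (mem_nonZeroDivisors_of_ne_zero hD)
    rw [_root_.map_mul, padicValNat.mul h3 h4, mul_add, h1, h2, ← Finset.sum_add_distrib]
    refine Finset.sum_congr rfl fun g _ => ?_
    have hPp : Prime (g • P) := (Ideal.prime_iff_isPrime (max_ne_bot _ (smul_max P hP g))).2 (smul_max P hP g).isPrime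
    rw [multiplicity_mul hPp (FiniteMultiplicity.of_prime_left hPp (mul_ne_zero hQ.ne_zero hD))]

theorem t_NRM : S_NRM := by
  intro M _ _ _ p hp P hP hpP D hD v hv
  rw [gen_case p hp P hP hpP D hD]
  refine Finset.sum_congr rfl fun g _ => ?_
  exact multiplicity_eq_of_dvd_of_not_dvd (hv g).1 (hv g).2

end Pool.Agent.D0H53.TI
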